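import Mathlib
import Pool.Agent.W2helper31.BE.Asm
import Pool.Agent.W2helper73.BE.Gau
import Pool.Agent.W2helper77.BE.Gaub
import Pool.Agent.W2helper85.BE.RADS
import Pool.Agent.W2helper27.BE.RADC
import Pool.Agent.W2helper98.BE.Cheb

set_option autoImplicit false

/-!
# MP_e52bd2_pr: the sharp Berry-Esseen bound for Rademacher sums with a large coefficient

If a coefficient `a 0` satisfies `P (0 < Z < a 0) ≥ 1 / 4`, that is, if it is at least the
third quartile of the standard normal law (`0.6744...`), then the bound of Q1 holds for every `x`,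
with this `a 0`. It need not be the largest coefficient, and the other ones may have any sign.
-/

namespace Pool.Agent.Results.MP_e52bd2_pr.LargeCoefficient

theorem result :
    ∀ (n : ℕ) (a : Fin (n + 1) → ℝ),
      (∑ i, a i ^ 2 = 1) →
      1 / 4 ≤ ((ProbabilityTheory.gaussianReal 0 1) (Set.Ioo 0 (a 0))).toReal →
      ∀ x : ℝ,
        |((Finset.univ.filter
              (fun ε : Fin (n + 1) → Bool =>
                ∑ i, (if ε i then a i else -a i) ≤ x)).card : ℝ) / 2 ^ (n + 1)
          - ((ProbabilityTheory.gaussianReal 0 1) (Set.Iic x)).toReal|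
        ≤ ((ProbabilityTheory.gaussianReal 0 1) (Set.Ioo 0 (a 0))).toReal := by
  intro n a hs hp x
  exact Pool.Agent.W2helper31.BE.final Pool.Agent.W2helper73.BE.gau
    Pool.Agent.W2helper77.BE.p_gaub Pool.Agent.W2helper85.BE.p_RADS
    Pool.Agent.W2helper27.BE.p_RADC Pool.Agent.W2helper98.BE.cheb n a hs hp x

end Pool.Agent.Results.MP_e52bd2_pr.LargeCoefficient
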